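import Pool.Agent.helper1.T1N.SpecN

/-! Project T1 (MP_07c750_an), row NHS: harmonic sums over a separated set. -/

set_option autoImplicit false

open MeasureTheory Finset

namespace Pool.Agent.T1N

theorem NHS_proof : NHS_stmt := by
  classical
  refine ⟨8, by norm_num, fun δ S a hδ hδ1 hS hsep ha => ?_⟩
  set n : ℕ := ⌊8 / δ⌋₊ with hn
  set φ : ℝ → ℕ × ℕ := fun s => (if a ≤ s then 0 else 1, ⌊|s - a| / δ⌋₊) with hφ
  have hfl : ∀ s ∈ S.filter (fun s => δ ≤ |s - a|), 1 ≤ ⌊|s - a| / δ⌋₊ ∧
      (⌊|s - a| / δ⌋₊ : ℝ) * δ ≤ |s - a| ∧ |s - a| < (⌊|s - a| / δ⌋₊ + 1 : ℝ) * δ := by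
    intro s hs
    rw [mem_filter] at hs
    have h0 : 0 ≤ |s - a| / δ := by positivity
    have h1 : 1 ≤ |s - a| / δ := by rw [le_div_iff₀ hδ]; linarith [hs.2]
    refine ⟨?_, ?_, ?_⟩
    · rw [Nat.one_le_floor_iff]
      exact h1
    · have h2 := Nat.floor_le h0
      rwa [le_div_iff₀ hδ] at h2
    · have h2 := Nat.lt_floor_add_one (|s - a| / δ)
      rwa [div_lt_iff₀ hδ] at h2
  have hinj : Set.InjOn φ (S.filter (fun s => δ ≤ |s - a|) : Finset ℝ) := by
    intro s hs s' hs' hss
    rw [mem_coe] at hs hs'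
    by_contra hne
    obtain ⟨-, h2, h3⟩ := hfl s hs
    obtain ⟨-, h2', h3'⟩ := hfl s' hs'
    rw [mem_filter] at hs hs'
    have h4 := hsep s hs.1 s' hs'.1 hne
    simp only [hφ, Prod.mk.injEq] at hss
    obtain ⟨h5, h6⟩ := hss
    rw [← h6] at h2' h3'
    have h7 : abs (|s - a| - |s' - a|) < δ := by
      rw [abs_lt]
      constructor <;> linarith
    by_cases h8 : a ≤ s
    · by_cases h9 : a ≤ s'
      · rw [abs_of_nonneg (by linarith : 0 ≤ s - a), abs_of_nonneg (by linarith : 0 ≤ s' - a)] at h7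
        have e : s - a - (s' - a) = s - s' := by ring
        rw [e] at h7
        linarith
      · rw [if_pos h8, if_neg h9] at h5
        exact absurd h5 (by norm_num)
    · by_cases h9 : a ≤ s'
      · rw [if_neg h8, if_pos h9] at h5
        exact absurd h5 (by norm_num)
      · push Not at h8 h9
        rw [abs_of_neg (by linarith : s - a < 0), abs_of_neg (by linarith : s' - a < 0)] at h7
        have e : -(s - a) - -(s' - a) = -(s - s') := by ring
        rw [e, abs_neg] at h7
        linarith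
  have hlog0 : 0 ≤ Real.log (1 / δ) := Real.log_nonneg (by rw [le_div_iff₀ hδ]; linarith)
  calc ∑ s ∈ S.filter (fun s => δ ≤ |s - a|), 1 / |s - a|
      ≤ ∑ s ∈ S.filter (fun s => δ ≤ |s - a|), 1 / δ * ((φ s).2 : ℝ)⁻¹ := by
        apply sum_le_sum
        intro s hs
        obtain ⟨h1, h2, -⟩ := hfl s hs
        have h1' : (1 : ℝ) ≤ (⌊|s - a| / δ⌋₊ : ℝ) := by exact_mod_cast h1
        show 1 / |s - a| ≤ 1 / δ * (⌊|s - a| / δ⌋₊ : ℝ)⁻¹
        rw [← one_div, one_div_mul_one_div]
        apply one_div_le_one_div_of_le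
        · positivity
        · linarith
    _ = ∑ p ∈ (S.filter (fun s => δ ≤ |s - a|)).image φ, 1 / δ * (p.2 : ℝ)⁻¹ := (sum_image (f := fun p : ℕ × ℕ => 1 / δ * (p.2 : ℝ)⁻¹) hinj).symm
    _ ≤ ∑ p ∈ range 2 ×ˢ Icc 1 n, 1 / δ * (p.2 : ℝ)⁻¹ := by
        apply sum_le_sum_of_subset_of_nonneg
        · intro p hp
          rw [mem_image] at hp
          obtain ⟨s, hs, rfl⟩ := hp
          obtain ⟨h1, h2, -⟩ := hfl s hs
          rw [mem_filter] at hs
          rw [mem_product, mem_range, mem_Icc]
          refine ⟨?_, h1, ?_⟩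
          · show (if a ≤ s then 0 else 1) < 2
            split_ifs <;> norm_num
          · apply Nat.floor_le_floor
            have h3 := hS s hs.1
            have h4 : |s - a| ≤ 8 := by
              have := abs_sub s a
              linarith
            gcongr
        · intro p _ _
          positivity
    _ = 2 / δ * ∑ j ∈ Icc 1 n, ((j : ℝ))⁻¹ := by
        rw [sum_product]
        simp only [← mul_sum]
        rw [sum_const, card_range, nsmul_eq_mul]
        push_cast
        ring
    _ ≤ 2 / δ * (1 + Real.log n) := by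
        have h1 := harmonic_le_one_add_log n
        rw [harmonic_eq_sum_Icc] at h1
        push_cast at h1
        exact mul_le_mul_of_nonneg_left h1 (by positivity)
    _ ≤ 8 / δ * (1 + Real.log (1 / δ)) := by
        have hn0 : (1 : ℝ) ≤ 8 / δ := by rw [le_div_iff₀ hδ]; linarith
        have h1 : (n : ℝ) ≤ 8 / δ := Nat.floor_le (by positivity)
        have hn1 : 1 ≤ n := by rw [hn, Nat.one_le_floor_iff]; exact hn0
        have hn2 : (0 : ℝ) < n := by exact_mod_cast hn1
        have h2 : Real.log n ≤ Real.log (8 / δ) := Real.log_le_log hn2 h1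
        have h3 : Real.log (8 / δ) = 3 * Real.log 2 + Real.log (1 / δ) := by
          rw [show (8 : ℝ) / δ = 2 ^ 3 * (1 / δ) by ring, Real.log_mul (by norm_num) (by positivity), Real.log_pow]
          norm_num
        have h4 := Real.log_two_lt_d9
        have h5 : 1 + Real.log n ≤ 4 * (1 + Real.log (1 / δ)) := by linarith
        calc 2 / δ * (1 + Real.log n) ≤ 2 / δ * (4 * (1 + Real.log (1 / δ))) :=
              mul_le_mul_of_nonneg_left h5 (by positivity)
          _ = 8 / δ * (1 + Real.log (1 / δ)) := by ring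

end Pool.Agent.T1N
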